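import Pool.Agent.Helper42.DB.Goals2

/-! Packet 1874 (ARC) of MP_48f005_an. -/

set_option autoImplicit false

namespace Pool.Agent.Helper42.DB.PkARC

open Set Filter Topology

lemma sin_ge_half {x : ℝ} (h0 : 0 ≤ x) (h1 : x ≤ 1 / 4) : x / 2 ≤ Real.sin x := by
  rcases h0.eq_or_lt with h | h
  · rw [← h]; simp
  · have h2 := Real.sin_gt_sub_cube h
    have h3 : x ^ 3 ≤ x := by
      calc x ^ 3 = x * (x * x) := by ring
        _ ≤ x * 1 := mul_le_mul_of_nonneg_left (by nlinarith) h0
        _ = x := by ring
    linarith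

lemma int_lin (c u v : ℝ) : ∫ t in u..v, c * (t - u) = c * (v - u) ^ 2 / 2 := by
  rw [intervalIntegral.integral_const_mul]
  rw [intervalIntegral.integral_comp_sub_right (fun x => x) u, integral_id]
  ring

lemma int_lin' (c u v : ℝ) : ∫ t in v..u, c * (u - t) = c * (u - v) ^ 2 / 2 := by
  rw [intervalIntegral.integral_const_mul]
  rw [intervalIntegral.integral_comp_sub_left (fun x => x) u, integral_id]
  ring

theorem thm (S : Sys) (hC : G_CRV) : G_ARC S := by
  intro i
  have hr0 := S.r0_pos
  have hr1 : 0 < S.r1 := lt_of_lt_of_le hr0 ((S.le_R i 0).trans (S.R_le i 0))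
  have hκ : 0 < S.κ := by unfold Sys.κ; positivity
  -- upper bound
  have hup : ∀ u v : ℝ, ‖S.g i u - S.g i v‖ ≤ S.r1 * |u - v| := by
    intro u v
    have h := Convex.norm_image_sub_le_of_norm_hasDerivWithin_le (f := S.g i)
      (f' := fun t => ((S.crv i).R t : ℝ) • tt t) (s := Set.univ) (C := S.r1) (x := v) (y := u)
      (fun t _ => ((S.crv i).der t).hasDerivWithinAt)
      (fun t _ => by
        rw [norm_smul, norm_tt, mul_one, Real.norm_eq_abs, abs_of_nonneg ((S.crv i).nonneg t)]
        exact S.R_le i t)
      convex_univ (Set.mem_univ _) (Set.mem_univ _)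
    simpa [Real.norm_eq_abs] using h
  -- lower bound, ordered case
  have hlow1 : ∀ u ∈ Icc (S.a i) (S.b i), ∀ v ∈ Icc (S.a i) (S.b i), u ≤ v →
      S.r0 / 2 * (v - u) ≤ ‖S.g i v - S.g i u‖ := by
    intro u hu v hv huv
    have hturn := S.turn i
    have hd : v - u ≤ 1 / 4 := by linarith [hu.1, hv.2]
    have h1 : |cr (ee ((u + v) / 2)) (S.g i v - S.g i u)| ≤ ‖S.g i v - S.g i u‖ := by
      have := abs_cr_le (ee ((u + v) / 2)) (S.g i v - S.g i u)
      rwa [norm_ee, one_mul] at this
    refine le_trans ?_ ((le_abs_self _).trans h1)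
    rw [(hC (S.crv i) ((u + v) / 2) u v).1]
    have h2 : ∫ _t in u..v, S.r0 / 2 = S.r0 / 2 * (v - u) := by
      rw [intervalIntegral.integral_const, smul_eq_mul]; ring
    rw [← h2]
    apply intervalIntegral.integral_mono_on huv
    · exact intervalIntegrable_const
    · exact ((S.crv i).cont.mul (by fun_prop)).intervalIntegrable _ _
    · intro t ht
      have hc : 1 / 2 ≤ Real.cos (t - (u + v) / 2) := by
        have h3 := Real.one_sub_sq_div_two_le_cos (x := t - (u + v) / 2)
        have h4 : (t - (u + v) / 2) ^ 2 ≤ 1 := by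
          have h5 : -1 ≤ t - (u + v) / 2 := by linarith [ht.1]
          have h6 : t - (u + v) / 2 ≤ 1 := by linarith [ht.2]
          nlinarith
        linarith
      have hR := S.le_R i t
      calc S.r0 / 2 = S.r0 * (1 / 2) := by ring
        _ ≤ (S.crv i).R t * Real.cos (t - (u + v) / 2) :=
          mul_le_mul hR hc (by norm_num) ((S.crv i).nonneg t)
  refine ⟨hκ, hr1, ?_, ?_⟩
  · intro u hu v hv
    refine ⟨?_, hup u v⟩
    rcases le_total u v with h | h
    · have := hlow1 u hu v hv h
      rw [abs_sub_comm, abs_of_nonneg (by linarith), norm_sub_rev]; exact this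
    · have := hlow1 v hv u hu h
      rw [abs_of_nonneg (by linarith)]; exact this
  · intro u hu p hp
    have hturn := S.turn i
    -- the points of the curve
    have key : ∀ v ∈ Icc (S.a i) (S.b i),
        S.κ * ‖S.g i u - S.g i v‖ ^ 2 ≤ dt (ee u) (S.g i u - S.g i v) := by
      intro v hv
      have h1 : dt (ee u) (S.g i u - S.g i v) = ∫ t in u..v, (S.crv i).R t * Real.sin (t - u) := by
        have := (hC (S.crv i) u u v).2
        rw [← neg_sub (S.g i v) (S.g i u), dt_neg_right]
        show -dt (ee u) ((S.crv i).G v - (S.crv i).G u) = _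
        rw [this, neg_neg]
      have h2 : S.r0 / 4 * (u - v) ^ 2 ≤ dt (ee u) (S.g i u - S.g i v) := by
        rw [h1]
        rcases le_total u v with h | h
        · have h3 := int_lin (S.r0 / 2) u v
          have h4 : S.r0 / 4 * (u - v) ^ 2 = S.r0 / 2 * (v - u) ^ 2 / 2 := by ring
          rw [h4, ← h3]
          apply intervalIntegral.integral_mono_on h
          · exact (by fun_prop : Continuous fun t : ℝ => S.r0 / 2 * (t - u)).intervalIntegrable _ _
          · exact ((S.crv i).cont.mul (by fun_prop)).intervalIntegrable _ _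
          · intro t ht
            have h5 := sin_ge_half (x := t - u) (by linarith [ht.1])
              (by linarith [ht.2, hu.1, hv.2])
            calc S.r0 / 2 * (t - u) = S.r0 * ((t - u) / 2) := by ring
              _ ≤ (S.crv i).R t * Real.sin (t - u) :=
                mul_le_mul (S.le_R i t) h5 (by linarith [ht.1]) ((S.crv i).nonneg t)
        · have h3 := int_lin' (S.r0 / 2) u v
          have h4 : S.r0 / 4 * (u - v) ^ 2 = S.r0 / 2 * (u - v) ^ 2 / 2 := by ring
          have h6 : ∫ t in u..v, (S.crv i).R t * Real.sin (t - u)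
              = ∫ t in v..u, (S.crv i).R t * Real.sin (u - t) := by
            rw [intervalIntegral.integral_symm, ← intervalIntegral.integral_neg]
            congr 1
            funext t
            rw [← neg_sub t u, Real.sin_neg]; ring
          rw [h6, h4, ← h3]
          apply intervalIntegral.integral_mono_on h
          · exact (by fun_prop : Continuous fun t : ℝ => S.r0 / 2 * (u - t)).intervalIntegrable _ _
          · exact ((S.crv i).cont.mul (by fun_prop)).intervalIntegrable _ _
          · intro t ht
            have h5 := sin_ge_half (x := u - t) (by linarith [ht.2])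
              (by linarith [ht.1, hu.2, hv.1])
            calc S.r0 / 2 * (u - t) = S.r0 * ((u - t) / 2) := by ring
              _ ≤ (S.crv i).R t * Real.sin (u - t) :=
                mul_le_mul (S.le_R i t) h5 (by linarith [ht.2]) ((S.crv i).nonneg t)
      refine le_trans ?_ h2
      have h7 : ‖S.g i u - S.g i v‖ ^ 2 ≤ (S.r1 * |u - v|) ^ 2 :=
        pow_le_pow_left₀ (norm_nonneg _) (hup u v) 2
      calc S.κ * ‖S.g i u - S.g i v‖ ^ 2 ≤ S.κ * (S.r1 * |u - v|) ^ 2 :=
            mul_le_mul_of_nonneg_left h7 hκ.le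
        _ = S.r0 / 4 * (u - v) ^ 2 := by
            unfold Sys.κ
            rw [mul_pow, sq_abs]
            field_simp
    -- convexity
    have hconv : Convex ℝ {p : ℂ | S.κ * ‖S.g i u - p‖ ^ 2 ≤ dt (ee u) (S.g i u - p)} := by
      have h1 : ConvexOn ℝ Set.univ
          (fun p : ℂ => S.κ * ‖S.g i u - p‖ ^ 2 - dt (ee u) (S.g i u - p)) := by
        refine ⟨convex_univ, ?_⟩
        intro x _ y _ α β hα hβ hαβ
        simp only [norm_sq_eq, dt, Complex.sub_re, Complex.sub_im, Complex.add_re, Complex.add_im,
          Complex.smul_re, Complex.smul_im, smul_eq_mul, ee_re, ee_im]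
        have hβ' : β = 1 - α := by linarith
        subst hβ'
        have key2 : 0 ≤ S.κ * (α * (1 - α)) * ((x.re - y.re) ^ 2 + (x.im - y.im) ^ 2) := by
          positivity
        nlinarith [key2]
      have h2 := h1.convex_le 0
      convert h2 using 1
      ext p
      simp
    have hsub : S.K i ⊆ {p : ℂ | S.κ * ‖S.g i u - p‖ ^ 2 ≤ dt (ee u) (S.g i u - p)} := by
      apply convexHull_min _ hconv
      rintro _ ⟨v, hv, rfl⟩
      exact key v hv
    exact hsub hp

end Pool.Agent.Helper42.DB.PkARC
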