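import Pool.Agent.Helper42.DB.Goals2

/-! Packet 1897 (STEP) of MP_48f005_an. -/

set_option autoImplicit false

namespace Pool.Agent.Helper42.DB.PkSTEP

open Set Filter Topology

lemma ee_add_kk {kk : ℝ} (h : Real.cos kk = -1) (θ : ℝ) : ee (θ + kk) = -ee θ := by
  rw [← ee_add_pi, ee_eq_ee_iff]
  have : θ + kk - (θ + Real.pi) = kk - Real.pi := by ring
  rw [this, Real.cos_sub_pi, h, neg_neg]

lemma pos_of_i {S : Sys} {x : St S} {i : S.ι} (h : x.i = i) : x.pos = S.g i x.u := by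
  subst h; rfl

theorem thm (S : Sys) (hFLB : G_FLB S) (hLIFT : G_LIFT S) (hLAND : G_LAND S) (hSIDE : G_SIDE)
    (hQOPEN : G_QOPEN) (hCORE : G_CORE S) : G_STEP S := by
  intro i p q x y0 y1 hpq hF hI h0 h1 hij
  have hp : p ∈ Icc p q := left_mem_Icc.mpr hpq.le
  have hq : q ∈ Icc p q := right_mem_Icc.mpr hpq.le
  have hne : i ≠ y0.i := by
    have := hFLB.1 _ _ h0
    rwa [hF.arc p hp] at this
  obtain ⟨η, C, kk, hkk, hdi, hdj, -, -, hfl⟩ := hLIFT i y0.i hne
  obtain ⟨hη0, hbk0⟩ := hfl _ _ h0 (hF.arc p hp) rfl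
  obtain ⟨hη1, hbk1⟩ := hfl _ _ h1 (hF.arc q hq) hij.symm
  obtain ⟨-, hok0, -, T0, hT0, hpos0, hseg0⟩ := h0
  obtain ⟨-, hok1, -, T1, hT1, hpos1, hseg1⟩ := h1
  have hcν : ContinuousOn (fun l => (x l).u) (Icc p q) := hF.cu
  have hcθ : ContinuousOn (fun l => (x l).th) (Icc p q) := hF.cu.add hF.cφ
  have hmono : MonoPair p q (fun l => (x l).u) (fun l => (x l).th) :=
    ⟨hcν, hcθ, hI.1, hI.2.1⟩
  have hφ : ∀ l ∈ Icc p q, |(x l).th - (x l).u| < Real.pi / 2 := by
    intro l hl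
    have : (x l).th - (x l).u = (x l).φ := by simp [St.th]
    rw [this]; exact (hF.ok l hl).2
  have hstrict : StrictPair (S.crv i) p q (fun l => (x l).u) (fun l => (x l).th) :=
    Or.inr ⟨fun u => lt_of_lt_of_le S.r0_pos (S.le_R i u), hφ, hI.2.2⟩
  have hνmem : ∀ l ∈ Icc p q, (x l).u ∈ Ioo (S.a i) (S.b i) := by
    intro l hl
    have := (hF.ok l hl).1
    rwa [hF.arc l hl] at this
  have hy0 : y0.u ∈ Ioo (S.a y0.i) (S.b y0.i) := hok0.1
  have hy1 : y1.u ∈ Ioo (S.a y0.i) (S.b y0.i) := by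
    have := hok1.1
    rwa [← hij] at this
  have hy1pos : y1.pos = S.g y0.i y1.u := pos_of_i hij.symm
  have hle : ∀ l ∈ Icc p q, |(x l).th - (x l).u| ≤ Real.pi / 2 := fun l hl => (hφ l hl).le
  obtain ⟨μ, T, hμp, hμq, hTp, hTq, hcμ, hcT, hanti, hall⟩ :=
    hLAND (S.crv i) y0.i p q (fun l => (x l).u) (fun l => (x l).th) η C kk y0.u y1.u T0 T1
      hpq hmono hstrict hle hη0 hη1 hkk
      (by
        intro u hu
        exact hdi u ⟨lt_of_lt_of_le (hνmem p hp).1 hu.1, lt_of_le_of_lt hu.2 (hνmem q hq).2⟩)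
      (by
        intro v hv
        exact hdj v (ordConnected_Ioo.uIcc_subset hy0 hy1 hv))
      hT0 hT1
      (by
        have := hpos0
        rw [pos_of_i (hF.arc p hp)] at this
        exact this)
      (by
        have := hpos1
        rw [pos_of_i (hF.arc q hq), hy1pos] at this
        exact this)
      (by
        have h2 : (x p).th + kk - y0.u = -y0.φ := by rw [← hbk0]; simp [St.bk]
        show |(x p).th + kk - y0.u| < Real.pi / 2
        rw [h2, abs_neg]; exact hok0.2)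
      (by
        have h2 : (x q).th + kk - y1.u = -y1.φ := by rw [← hbk1]; simp [St.bk]
        show |(x q).th + kk - y1.u| < Real.pi / 2
        rw [h2, abs_neg]; exact hok1.2)
  have hμmem : ∀ l ∈ Icc p q, μ l ∈ Ioo (S.a y0.i) (S.b y0.i) := by
    intro l hl
    have ha := hanti.antitoneOn
    constructor
    · calc S.a y0.i < y1.u := hy1.1
        _ = μ q := hμq.symm
        _ ≤ μ l := ha hl hq hl.2
    · calc μ l ≤ μ p := ha hp hl hl.1
        _ = y0.u := hμp
        _ < S.b y0.i := hy0.2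
  have hcb : ContinuousOn (fun l => (S.crv i).G (x l).u) (Icc p q) :=
    (S.crv i).continuous.comp_continuousOn hcν
  have hside := hSIDE (S.crv i) p q (fun l => (x l).u) (fun l => (x l).th) hpq hmono hstrict hle
  have hopen := hQOPEN p q _ _ T hpq hcb hcθ hcT hside
  have hY := hCORE y0.i p q (fun l => (S.crv i).G (x l).u) (fun l => (x l).th) T μ kk hpq
    hcb hcθ hcT hcμ hopen hkk
    (fun l hl => ⟨(hall l hl).1, hμmem l hl, (hall l hl).2.1, (hall l hl).2.2⟩)
    (by
      intro t ht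
      rw [hTp] at ht
      have := hseg0 t ht
      rwa [pos_of_i (hF.arc p hp)] at this)
    (by
      intro t ht
      rw [hTq] at ht
      have := hseg1 t ht
      rwa [pos_of_i (hF.arc q hq)] at this)
    (Or.inr ⟨i, fun l => (x l).u, fun l hl => ⟨hνmem l hl, rfl, hφ l hl⟩⟩)
    ⟨S.g i (x p).u, fun l hl => by
      have := S.small i (x l).u (Ioo_subset_Icc_self (hνmem l hl)) (x p).u
        (Ioo_subset_Icc_self (hνmem p hp))
      have h2 := S.ρ_pos
      exact this.trans (by linarith)⟩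
  have hbk : ∀ l, (⟨y0.i, μ l, μ l - ((x l).th + kk)⟩ : St S).bk = (x l).th + kk := by
    intro l; simp [St.bk]
  have hOk : ∀ l ∈ Icc p q, (⟨y0.i, μ l, μ l - ((x l).th + kk)⟩ : St S).Ok := by
    intro l hl
    refine ⟨hμmem l hl, ?_⟩
    show |μ l - ((x l).th + kk)| < Real.pi / 2
    rw [abs_sub_comm]
    exact (hall l hl).2.2
  refine ⟨fun l => ⟨y0.i, μ l, μ l - ((x l).th + kk)⟩, ?_, ?_, ?_, ?_, ?_, ?_⟩
  · apply St.ext
    · rfl
    · exact hμp
    · show μ p - ((x p).th + kk) = y0.φ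
      rw [← hbk0, hμp]; simp [St.bk]
  · apply St.ext
    · exact hij
    · exact hμq
    · show μ q - ((x q).th + kk) = y1.φ
      rw [← hbk1, hμq]; simp [St.bk]
  · refine ⟨fun l _ => rfl, hOk, hcμ, ?_⟩
    exact hcμ.sub (hcθ.add continuousOn_const)
  · intro l hl
    refine ⟨hF.ok l hl, hOk l hl, ?_, T l, (hall l hl).1, ?_, ?_⟩
    · rw [hbk, ee_add_kk hkk, neg_neg]
    · show S.g y0.i (μ l) = _
      rw [pos_of_i (hF.arc l hl)]
      exact (hall l hl).2.1
    · intro t ht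
      have := hY l hl t ht
      rw [pos_of_i (hF.arc l hl)]
      exact this
  · exact hanti
  · intro l hl l' hl' hll
    have h2 := hanti hl hl' hll
    have h3 := hI.2.1 hl hl' hll.le
    show μ l' + (μ l' - ((x l').th + kk)) < μ l + (μ l - ((x l).th + kk))
    simp only at h3
    linarith

end Pool.Agent.Helper42.DB.PkSTEP
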